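import Pool.Agent.KS6_5.HoTTP.Fin

/-!
# Both halves of both questions, over every ring and with every module

`P(S)` denotes the presheaves of spaces on the ∞-category presented by the simplicial set `S`. The
simplicial set `S` of the theorem presents the ∞-category with two objects `d`, `c`, with mapping
space `Map(d, c) = Bℤ` (a circle), contractible `Map(d, d)`, `Map(c, c)`, and empty `Map(c, d)`. The
`1`-toposes of `0`-truncated objects of `P(S)` and `P(Δ¹)` are both the category of presheaves of sets
on the arrow `0 → 1`.
-/

set_option autoImplicit false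

namespace Pool.Agent.Results.MP_9c2d05_gt.BothHalves

open CategoryTheory Simplicial Opposite
open Pool.Agent.R794.HoTT Pool.Agent.R794.Gerbe Pool.Agent.KS6_5.HoTTP

/-- There are a simplicial set `S` and an equivalence `e` between the homotopy categories of `S` and
`Δ¹`, hence between the `1`-toposes of `0`-truncated objects of the ∞-toposes `P(S)` and `P(Δ¹)`, with
the following properties, for every ring `k` and every `k`-module `M`.

* The constant module `M` is HoTT-injective in `P(Δ¹)`, and internally injective in `P(S)`, if and
  only if `M` is injective; it is HoTT-injective in `P(S)` only if `M = 0`.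
* The module `(0 → M)` is HoTT-projective in `P(Δ¹)`, and internally projective in `P(S)`, if and
  only if `M` is projective; it is HoTT-projective in `P(S)` only if `M = 0`. -/
theorem result : ∃ (S : SSet.{0})
    (e : SSet.hoFunctor.obj S ≌ SSet.hoFunctor.obj (Δ[1] : SSet.{0})),
    ∀ (k : Type) [Ring k] (M : ModuleCat.{0} k),
      ((HoTTInjective Δ[1] (const (SSet.hoFunctor.obj (Δ[1] : SSet.{0})) M) ↔ Injective M) ∧
        (InternallyInjective
          (e.functor.op ⋙ const (SSet.hoFunctor.obj (Δ[1] : SSet.{0})) M) ↔ Injective M) ∧
        (HoTTInjective S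
          (e.functor.op ⋙ const (SSet.hoFunctor.obj (Δ[1] : SSet.{0})) M) ↔ Subsingleton M)) ∧
      ((HoTTProjective Δ[1] (atZero M) ↔ Projective M) ∧
        (InternallyProjective (e.functor.op ⋙ atZero M) ↔ Projective M) ∧
        (HoTTProjective S (e.functor.op ⋙ atZero M) ↔ Subsingleton M)) := by
  refine ⟨S, FF.asEquivalence, fun k _ M => ⟨⟨⟨?_, ?_⟩, ⟨?_, ?_⟩, ⟨?_, ?_⟩⟩,
    ⟨⟨?_, ?_⟩, ⟨?_, ?_⟩, ⟨?_, ?_⟩⟩⟩⟩
  · intro h
    exact injective_of_internallyInjective (D := HoC (Δ[1] : SSet.{0}))
      (mk (SSet.stdSimplex.objMk ⟨fun _ => 0, monotone_const⟩)) M (h _ (𝟙 _) id_rf)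
  · intro h E p hp
    exact internallyInjective_const (rf_over_initial hp) M _ rfl
  · intro h
    exact injective_of_internallyInjective (D := HoC S) (mk Sd) M h
  · intro h
    exact internallyInjective_const S_over_initial M _ rfl
  · intro h
    exact E_not_inj M (h E p p_rightFibration)
  · intro h E' p' _
    exact internallyInjective_of_subsingleton _ (fun _ => h)
  · exact proj_a M
  · exact proj_b M
  · exact proj_c M
  · exact proj_d M
  · exact proj_e M
  · exact proj_f M

end Pool.Agent.Results.MP_9c2d05_gt.BothHalves
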